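import Pool.Agent.Q152.CC.Stm

set_option autoImplicit false

/-!
# Project CC (helper152), job ALL: every primitive cubic Dirichlet character
-/

namespace Pool.Agent.Q277.CC

open Finset Pool.Agent.Y692.QS Pool.Agent.Q152.CC

lemma kn_one (kap : S_KAP) (n : ℕ) (hn : n ≠ 0) : kn n 1 = 1 := by
  have hk := kap n hn
  have h1 : IsCoprime (nr 1) (n : ℤ) := by
    rw [nr_one]
    exact isCoprime_one_left
  have h3 : (3 : Ei) ∣ 1 - 1 := by
    rw [sub_self]
    exact dvd_zero _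
  have hm := hk.mul 1 1 h1 h1 h3 h3
  have hc := hk.cube 1 h1 h3
  rw [mul_one] at hm
  have hne : kn n 1 ≠ 0 := by
    intro h0
    rw [h0] at hc
    norm_num at hc
  exact mul_right_cancel₀ hne (by rw [one_mul]; exact hm.symm)

lemma xi_one (kap : S_KAP) (n : ℕ) (hn : 1 ≤ n) : xi 1 n = 1 := by
  unfold xi
  rw [if_pos (by rw [nr_one]; exact isCoprime_one_left), kn_one kap n (by omega), map_one]

lemma char_one (χ : DirichletCharacter ℂ 1) (n : ℕ) : χ (n : ZMod 1) = 1 := by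
  rw [Subsingleton.elim (n : ZMod 1) 1, map_one]

lemma prim_ne {p : ℕ} (hp : p.Prime) {χ : DirichletCharacter ℂ p} (h : χ.IsPrimitive) : χ ≠ 1 := by
  intro h1
  have : NeZero p := ⟨hp.ne_zero⟩
  have h2 : χ.conductor = p := h
  rw [h1, DirichletCharacter.conductor_one] at h2
  exact hp.one_lt.ne h2

/-- the part prime to `3` -/
lemma coprime_part (chp : S_CHP) (crt : S_CRT) (cnd : S_CND) (xmu : S_XMU) (kap : S_KAP) :
    ∀ m : ℕ, 1 ≤ m → ¬ 3 ∣ m → ∀ χ : DirichletCharacter ℂ m, χ ^ 3 = 1 → χ.IsPrimitive →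
      ∃ α : Ei, (3 : Ei) ∣ α - 1 ∧ nr α = m ∧ ∀ n : ℕ, 1 ≤ n → χ (n : ZMod m) = xi α n := by
  intro m
  induction m using Nat.strong_induction_on with
  | _ m ih =>
    intro hm h3 χ hχ hprim
    by_cases hm1 : m = 1
    · subst hm1
      refine ⟨1, by rw [sub_self]; exact dvd_zero _, by rw [nr_one]; rfl, fun n hn => ?_⟩
      rw [char_one, xi_one kap n hn]
    · have hp : (m.minFac).Prime := Nat.minFac_prime hm1
      obtain ⟨m', hm'⟩ := Nat.minFac_dvd m
      generalize m.minFac = p at hp hm'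
      subst hm'
      have hm0 : 1 ≤ m' := by
        rcases Nat.eq_zero_or_pos m' with h | h
        · rw [h, mul_zero] at hm
          omega
        · exact h
      have hp3 : p ≠ 3 := by
        rintro rfl
        exact h3 (dvd_mul_right _ _)
      have hsq := (cnd (p * m') hm χ hχ hprim).1 p hp hp3
      have hcop : p.Coprime m' := by
        rw [hp.coprime_iff_not_dvd]
        rintro ⟨c, rfl⟩
        exact hsq ⟨c, by ring⟩
      obtain ⟨χ₁, χ₂, h1, h2, hp1, hp2, hval⟩ := crt p m' hp.one_lt.le hm0 hcop χ hχ hprim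
      obtain ⟨α₁, ha1, hn1, hv1⟩ := chp p hp χ₁ h1 (prim_ne hp hp1)
      have hlt : m' < p * m' := by
        have := hp.two_le
        nlinarith
      obtain ⟨α₂, ha2, hn2, hv2⟩ := ih m' hlt hm0 (fun h => h3 (Dvd.dvd.mul_left h _)) χ₂ h2 hp2
      refine ⟨α₁ * α₂, ?_, ?_, fun n hn => ?_⟩
      · have : α₁ * α₂ - 1 = (α₁ - 1) * α₂ + (α₂ - 1) := by ring
        rw [this]
        exact dvd_add (Dvd.dvd.mul_right ha1 _) ha2
      · rw [nr_mul, hn1, hn2]
        push_cast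
        rfl
      · rw [hval n, hv1 n hn, hv2 n hn, xmu.2.1 α₁ α₂ n hn ha1 ha2]

/-- **Job ALL.** -/
theorem all (chp : S_CHP) (crt : S_CRT) (cnd : S_CND) (xmu : S_XMU) (kap : S_KAP) : S_ALL := by
  intro m hm χ hχ hprim
  by_cases h3 : 3 ∣ m
  · obtain ⟨h9, h27⟩ := (cnd m hm χ hχ hprim).2 h3
    obtain ⟨m', rfl⟩ := h9
    have hm0 : 1 ≤ m' := by omega
    have h3' : ¬ 3 ∣ m' := by
      rintro ⟨c, rfl⟩
      exact h27 ⟨c, by ring⟩
    have hcop : (m').Coprime 9 := by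
      have : (m').Coprime 3 := ((Nat.prime_three.coprime_iff_not_dvd).2 h3').symm
      exact Nat.Coprime.pow_right 2 this
    have key : ∀ M : ℕ, M = m' * 9 → ∀ χ : DirichletCharacter ℂ M, χ ^ 3 = 1 → χ.IsPrimitive →
        ∃ (α : Ei) (d : ℕ) (ψ : DirichletCharacter ℂ d), (3 : Ei) ∣ α - 1 ∧ (d = 1 ∨ d = 9) ∧
        nr α * d = M ∧ ∀ n : ℕ, 1 ≤ n → χ (n : ZMod M) = xi α n * ψ (n : ZMod d) := by
      rintro M rfl χ hχ hprim
      obtain ⟨χ₁, χ₂, h1, h2, hp1, hp2, hval⟩ := crt m' 9 hm0 (by norm_num) hcop χ hχ hprim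
      obtain ⟨α, ha, hn, hv⟩ := coprime_part chp crt cnd xmu kap m' hm0 h3' χ₁ h1 hp1
      refine ⟨α, 9, χ₂, ha, Or.inr rfl, ?_, fun n hn' => ?_⟩
      · rw [hn]
        push_cast
        rfl
      · rw [hval n, hv n hn']
    exact key (9 * m') (mul_comm _ _) χ hχ hprim
  · obtain ⟨α, ha, hn, hv⟩ := coprime_part chp crt cnd xmu kap m hm h3 χ hχ hprim
    refine ⟨α, 1, 1, ha, Or.inl rfl, ?_, fun n hn' => ?_⟩
    · rw [hn, Nat.cast_one, mul_one]
    · rw [hv n hn', char_one, mul_one]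

end Pool.Agent.Q277.CC
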