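import Pool.Agent.Q152.CC.Stm2

set_option autoImplicit false

/-!
# Project CC (helper152), job DIR: the Dirichlet kernel
-/

namespace Pool.Agent.Q277.CC

open Finset Pool.Agent.Q152.CC

lemma norm_ee (t : ℝ) : ‖ee t‖ = 1 := by
  unfold ee
  have h : (2 * Real.pi * t * Complex.I : ℂ) = ((2 * Real.pi * t : ℝ) : ℂ) * Complex.I := by
    push_cast
    ring
  rw [h, Complex.norm_exp_ofReal_mul_I]

lemma ee_mul (t : ℝ) (s : ℕ) : ee (t * s) = ee t ^ s := by
  unfold ee
  rw [← Complex.exp_nat_mul]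
  congr 1
  push_cast
  ring

/-- **Job DIR.** -/
theorem dir : S_DIR := by
  intro T K i hT
  have hT0 : (0 : ℝ) < T := by exact_mod_cast hT
  refine ⟨?_, fun hi hiT => ?_⟩
  · unfold DK
    refine (norm_sum_le _ _).trans ?_
    simp only [norm_ee]
    simp
  · have hz : DK T K i = ∑ s ∈ range K, ee ((i : ℝ) / T) ^ s := by
      unfold DK
      refine sum_congr rfl fun s _ => ?_
      rw [← ee_mul]
      congr 1
      ring
    have habs : |(i : ℝ)| * 2 ≤ T := by
      have : ((2 * |i| : ℤ) : ℝ) ≤ ((T : ℤ) : ℝ) := by exact_mod_cast hiT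
      push_cast at this
      linarith
    have hi0 : 0 < |(i : ℝ)| := by
      rw [abs_pos]
      exact_mod_cast hi
    have hlow : 4 * |(i : ℝ)| / T ≤ ‖ee ((i : ℝ) / T) - 1‖ := by
      have h1 : ee ((i : ℝ) / T) = Complex.exp (Complex.I * ((2 * Real.pi * ((i : ℝ) / T) : ℝ) : ℂ)) := by
        unfold ee
        congr 1
        push_cast
        ring
      rw [h1, Complex.norm_exp_I_mul_ofReal_sub_one, Real.norm_eq_abs, abs_mul, abs_two]
      have h2 : |Real.pi * ((i : ℝ) / T)| ≤ Real.pi / 2 := by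
        rw [abs_mul, abs_of_pos Real.pi_pos, abs_div, abs_of_pos hT0, mul_div_assoc', div_le_div_iff₀ hT0 two_pos]
        nlinarith [Real.pi_pos]
      have h3 := Real.mul_abs_le_abs_sin h2
      have h4 : (2 * Real.pi * ((i : ℝ) / T)) / 2 = Real.pi * ((i : ℝ) / T) := by ring
      rw [h4]
      have h5 : 2 / Real.pi * |Real.pi * ((i : ℝ) / T)| = 2 * |(i : ℝ)| / T := by
        rw [abs_mul, abs_of_pos Real.pi_pos, abs_div, abs_of_pos hT0]
        field_simp
      rw [h5] at h3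
      calc 4 * |(i : ℝ)| / T = 2 * (2 * |(i : ℝ)| / T) := by ring
        _ ≤ _ := by linarith
    have hpos : 0 < 4 * |(i : ℝ)| / T := by positivity
    have hgeom : (∑ s ∈ range K, ee ((i : ℝ) / T) ^ s) * (ee ((i : ℝ) / T) - 1) = ee ((i : ℝ) / T) ^ K - 1 :=
      geom_sum_mul _ _
    have hnorm : ‖DK T K i‖ * ‖ee ((i : ℝ) / T) - 1‖ ≤ 2 := by
      rw [hz, ← norm_mul, hgeom]
      refine (norm_sub_le _ _).trans ?_
      rw [norm_pow, norm_ee, one_pow, norm_one]
      norm_num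
    have h6 : ‖DK T K i‖ * (4 * |(i : ℝ)| / T) ≤ 2 :=
      (mul_le_mul_of_nonneg_left hlow (norm_nonneg _)).trans hnorm
    have h7 : ‖DK T K i‖ ≤ 2 / (4 * |(i : ℝ)| / T) := by
      rw [le_div_iff₀ hpos]
      exact h6
    refine h7.trans (le_of_eq ?_)
    push_cast
    field_simp
    norm_num

end Pool.Agent.Q277.CC
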