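import Pool.Agent.Q152.CC.Stm2

set_option autoImplicit false

/-!
# Project CC (helper152), job MO2: moments with smooth weights
-/

namespace Pool.Agent.Q277.CC.Mo

open Finset MeasureTheory Pool.Agent.Y692.QS Pool.Agent.Q152.CC
open Pool.Agent.Q255.CU (fc m3)

instance : IsProbabilityMeasure m3 := by
  unfold m3
  infer_instance

/-- the `k`-tuples of elements of `I` -/
noncomputable def J (k : ℕ) (I : Finset ℕ) : Finset (Fin k → ℕ) := Fintype.piFinset fun _ => I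

/-- the product of the entries -/
def pr {k : ℕ} (p : Fin k → ℕ) : ℕ := ∏ i, p i

/-- the product of the coefficients -/
def cp {k : ℕ} (c : ℕ → ℂ) (p : Fin k → ℕ) : ℂ := ∏ i, c (p i)

lemma pr_pos {k : ℕ} {I : Finset ℕ} (hI : ∀ n ∈ I, 1 ≤ n) {p : Fin k → ℕ} (hp : p ∈ J k I) : 1 ≤ pr p := by
  unfold pr
  refine Nat.one_le_iff_ne_zero.2 (Finset.prod_ne_zero_iff.2 fun i _ => ?_)
  have := hI _ (Fintype.mem_piFinset.1 hp i)
  omega

lemma pr_le {k R : ℕ} {I : Finset ℕ} (hI : ∀ n ∈ I, n ≤ R) {p : Fin k → ℕ} (hp : p ∈ J k I) :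
    pr p ≤ R ^ k := by
  unfold pr
  calc ∏ i, p i ≤ ∏ _i : Fin k, R := Finset.prod_le_prod' fun i _ => hI _ (Fintype.mem_piFinset.1 hp i)
    _ = R ^ k := by simp

lemma cp_le {k : ℕ} {I : Finset ℕ} {c : ℕ → ℂ} (hc : ∀ n ∈ I, ‖c n‖ ≤ 1) {p : Fin k → ℕ} (hp : p ∈ J k I) :
    ‖cp c p‖ ≤ 1 := by
  unfold cp
  rw [norm_prod]
  exact Finset.prod_le_one (fun _ _ => norm_nonneg _) fun i _ => hc _ (Fintype.mem_piFinset.1 hp i)

lemma card_J (k : ℕ) (I : Finset ℕ) : (J k I).card = I.card ^ k := by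
  unfold J
  simp

lemma mul_prod {f : ℕ → ℂ} (h1 : f 1 = 1) (hf : ∀ m n : ℕ, 1 ≤ m → 1 ≤ n → f (m * n) = f m * f n)
    {ι : Type*} (s : Finset ι) (p : ι → ℕ) (hp : ∀ i ∈ s, 1 ≤ p i) :
    f (∏ i ∈ s, p i) = ∏ i ∈ s, f (p i) := by
  classical
  induction s using Finset.induction_on with
  | empty => simp [h1]
  | insert a s ha ih =>
    rw [Finset.prod_insert ha, Finset.prod_insert ha, hf, ih fun i hi => hp i (Finset.mem_insert_of_mem hi)]
    · exact hp a (Finset.mem_insert_self _ _)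
    · exact Nat.one_le_iff_ne_zero.2 (Finset.prod_ne_zero_iff.2 fun i hi => by
        have := hp i (Finset.mem_insert_of_mem hi)
        omega)

lemma pow_expand {f : ℕ → ℂ} (h1 : f 1 = 1) (hf : ∀ m n : ℕ, 1 ≤ m → 1 ≤ n → f (m * n) = f m * f n)
    (k : ℕ) {I : Finset ℕ} (hI : ∀ n ∈ I, 1 ≤ n) (c : ℕ → ℂ) :
    (∑ n ∈ I, c n * f n) ^ k = ∑ p ∈ J k I, cp c p * f (pr p) := by
  rw [Finset.sum_pow']
  unfold J
  refine Finset.sum_congr rfl fun p hp => ?_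
  rw [Finset.prod_mul_distrib]
  unfold cp pr
  rw [mul_prod h1 hf Finset.univ p fun i _ => hI _ (Fintype.mem_piFinset.1 hp i)]

lemma norm_pow_expand {f : ℕ → ℂ} (h1 : f 1 = 1)
    (hf : ∀ m n : ℕ, 1 ≤ m → 1 ≤ n → f (m * n) = f m * f n)
    (k : ℕ) {I : Finset ℕ} (hI : ∀ n ∈ I, 1 ≤ n) (c : ℕ → ℂ) :
    ((‖∑ n ∈ I, c n * f n‖ ^ (2 * k) : ℝ) : ℂ) =
      ∑ p ∈ J k I, ∑ q ∈ J k I, cp c p * star (cp c q) * (f (pr p) * star (f (pr q))) := by
  have h2 : ((‖∑ n ∈ I, c n * f n‖ ^ (2 * k) : ℝ) : ℂ) =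
      (∑ n ∈ I, c n * f n) ^ k * star ((∑ n ∈ I, c n * f n) ^ k) := by
    rw [Complex.star_def, Complex.mul_conj, Complex.normSq_eq_norm_sq, norm_pow, ← pow_mul, mul_comm k 2]
  rw [h2, pow_expand h1 hf k hI c, star_sum, Finset.sum_mul_sum]
  refine Finset.sum_congr rfl fun p _ => Finset.sum_congr rfl fun q _ => ?_
  rw [star_mul']
  ring

lemma xi_one (α : Ei) : xi α 1 = 1 := by
  unfold xi
  rw [if_pos (by rw [Nat.cast_one]; exact isCoprime_one_right)]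
  unfold kn
  simp

/-- the integral of the random function -/
lemma integral_expand (syt : Pool.Agent.Q255.CU.S_SYT) (k : ℕ) {I : Finset ℕ} (hI : ∀ n ∈ I, 1 ≤ n)
    (c : ℕ → ℂ) :
    ∫ ω, ‖∑ n ∈ I, ((‖c n‖ : ℝ) : ℂ) * rc ω n‖ ^ (2 * k) ∂rm =
      ∑ p ∈ J k I, ∑ q ∈ J k I, ‖cp c p‖ * ‖cp c q‖ * (if fc (pr p) = fc (pr q) then 1 else 0) := by
  obtain ⟨-, -, hmul, hnorm, horth⟩ := syt
  have hone : ∀ ω : ℕ → ZMod 3, rc ω 1 = 1 := by
    intro ω
    have h := hmul ω 1 1 le_rfl le_rfl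
    rw [mul_one] at h
    have hne : Pool.Agent.Q255.CU.f3 ω 1 ≠ 0 := by
      intro h0
      have := (hnorm ω 1).1
      rw [h0, norm_zero] at this
      exact zero_ne_one this
    exact mul_left_cancel₀ hne (by rw [mul_one]; exact h.symm)
  have hcn : ∀ p : Fin k → ℕ, cp (fun n => ((‖c n‖ : ℝ) : ℂ)) p = ((‖cp c p‖ : ℝ) : ℂ) := by
    intro p
    unfold cp
    rw [norm_prod]
    push_cast
    rfl
  have hC : ((∫ ω, ‖∑ n ∈ I, ((‖c n‖ : ℝ) : ℂ) * rc ω n‖ ^ (2 * k) ∂rm : ℝ) : ℂ) =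
      ((∑ p ∈ J k I, ∑ q ∈ J k I, ‖cp c p‖ * ‖cp c q‖ * (if fc (pr p) = fc (pr q) then 1 else 0) : ℝ) : ℂ) := by
    rw [← integral_complex_ofReal]
    have h1 : ∀ ω : ℕ → ZMod 3, ((‖∑ n ∈ I, ((‖c n‖ : ℝ) : ℂ) * rc ω n‖ ^ (2 * k) : ℝ) : ℂ) =
        ∑ p ∈ J k I, ∑ q ∈ J k I, ((‖cp c p‖ : ℝ) : ℂ) * ((‖cp c q‖ : ℝ) : ℂ) *
          (rc ω (pr p) * star (rc ω (pr q))) := by
      intro ω
      rw [norm_pow_expand (hone ω) (hmul ω) k hI]
      refine Finset.sum_congr rfl fun p _ => Finset.sum_congr rfl fun q _ => ?_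
      rw [hcn, hcn, Complex.star_def, Complex.conj_ofReal]
    simp only [h1]
    have hint : ∀ p q : Fin k → ℕ, Integrable (fun ω => ((‖cp c p‖ : ℝ) : ℂ) * ((‖cp c q‖ : ℝ) : ℂ) *
          (rc ω (pr p) * star (rc ω (pr q)))) rm := by
      intro p q
      have hm1 : Measurable fun ω : ℕ → ZMod 3 => rc ω (pr p) := (hnorm (fun _ => 0) (pr p)).2.2
      have hm2 : Measurable fun ω : ℕ → ZMod 3 => rc ω (pr q) := (hnorm (fun _ => 0) (pr q)).2.2
      refine Integrable.const_mul (Integrable.of_bound (C := 1) ?_ (Filter.Eventually.of_forall fun ω => ?_)) _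
      · exact (hm1.mul (continuous_star.measurable.comp hm2)).aestronglyMeasurable
      · rw [norm_mul, norm_star, (hnorm ω (pr p)).1, (hnorm ω (pr q)).1, one_mul]
    rw [integral_finsetSum _ fun p _ => integrable_finsetSum _ fun q _ => hint p q]
    push_cast
    refine Finset.sum_congr rfl fun p hp => ?_
    rw [integral_finsetSum _ fun q _ => hint p q]
    refine Finset.sum_congr rfl fun q hq => ?_
    rw [integral_const_mul, horth (pr p) (pr q) (pr_pos hI hp) (pr_pos hI hq)]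
    by_cases hfc : fc (pr p) = fc (pr q)
    · simp only [if_pos hfc, Complex.ofReal_one]
    · simp only [if_neg hfc, Complex.ofReal_zero]
  exact_mod_cast hC

/-- **Job MO2.** -/
theorem mo2 (pvb : S_PVB) (xmu : S_XMU) (syt : Pool.Agent.Q255.CU.S_SYT) : S_MO2 := by
  intro k η hη
  obtain ⟨C, hC, hpvb⟩ := pvb η hη
  refine ⟨C, hC, fun R K I c hI hc => ?_⟩
  have hI1 : ∀ n ∈ I, 1 ≤ n := fun n hn => (hI n hn).1
  have hI2 : ∀ n ∈ I, n ≤ R := fun n hn => (hI n hn).2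
  set T : ℕ → ℕ → ℂ := fun A B => ∑ s ∈ range K, ∑ s' ∈ range K, ∑ t ∈ range K, ∑ t' ∈ range K,
    G A B ((s : ℤ) - s') ((t : ℤ) - t') with hT
  set E : ℝ := ∑ s ∈ range K, ∑ s' ∈ range K, ∑ t ∈ range K, ∑ t' ∈ range K,
      ‖∑ n ∈ I, c n * xi (al ((s : ℤ) - s') ((t : ℤ) - t')) n‖ ^ (2 * k) with hE
  have hal : ∀ x y : ℤ, (3 : Ei) ∣ al x y - 1 := by
    intro x y
    have h := (int_dvd (n := 3) (α := al x y - 1)).2
      ⟨⟨x, by rw [QuadraticAlgebra.re_sub, QuadraticAlgebra.re_one]; simp [al]⟩,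
        ⟨y, by rw [QuadraticAlgebra.im_sub, QuadraticAlgebra.im_one]; simp [al]⟩⟩
    exact_mod_cast h
  have hGn : ∀ (A B : ℕ) (x y : ℤ), 1 ≤ A → 1 ≤ B → ‖G A B x y‖ ≤ 1 := by
    intro A B x y hA hB
    unfold G
    rw [norm_mul, norm_star]
    exact mul_le_one₀ (xmu.2.2 _ A hA (hal x y)) (norm_nonneg _) (xmu.2.2 _ B hB (hal x y))
  have hTn : ∀ A B : ℕ, 1 ≤ A → 1 ≤ B → ‖T A B‖ ≤ (K : ℝ) ^ 4 := by
    intro A B hA hB
    rw [hT]
    calc _ ≤ ∑ s ∈ range K, ∑ s' ∈ range K, ∑ t ∈ range K, ∑ t' ∈ range K, (1 : ℝ) := by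
          refine (norm_sum_le _ _).trans (Finset.sum_le_sum fun s _ => ?_)
          refine (norm_sum_le _ _).trans (Finset.sum_le_sum fun s' _ => ?_)
          refine (norm_sum_le _ _).trans (Finset.sum_le_sum fun t _ => ?_)
          exact (norm_sum_le _ _).trans (Finset.sum_le_sum fun t' _ => hGn _ _ _ _ hA hB)
      _ = (K : ℝ) ^ 4 := by
          simp only [Finset.sum_const, Finset.card_range, nsmul_eq_mul, mul_one]
          ring
  have hEC : (E : ℂ) = ∑ p ∈ J k I, ∑ q ∈ J k I, cp c p * star (cp c q) * T (pr p) (pr q) := by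
    rw [hE]
    simp only [Complex.ofReal_sum]
    have h1 : ∀ x y : ℤ, ((‖∑ n ∈ I, c n * xi (al x y) n‖ ^ (2 * k) : ℝ) : ℂ) =
        ∑ p ∈ J k I, ∑ q ∈ J k I, cp c p * star (cp c q) * G (pr p) (pr q) x y := fun x y =>
      norm_pow_expand (xi_one _) (fun m n hm hn => xmu.1 _ m n hm hn) k hI1 c
    simp only [h1]
    rw [hT]
    simp only [Finset.mul_sum]
    have hsw : ∀ f : ℕ → (Fin k → ℕ) → (Fin k → ℕ) → ℂ,
        ∑ s ∈ range K, ∑ p ∈ J k I, ∑ q ∈ J k I, f s p q = ∑ p ∈ J k I, ∑ q ∈ J k I, ∑ s ∈ range K, f s p q := by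
      intro f
      rw [Finset.sum_comm]
      exact Finset.sum_congr rfl fun p _ => Finset.sum_comm
    simp only [hsw]
  have hbound : E ≤ ∑ p ∈ J k I, ∑ q ∈ J k I, (‖cp c p‖ * ‖cp c q‖ *
      (if fc (pr p) = fc (pr q) then 1 else 0) * (K : ℝ) ^ 4 +
      C * (K : ℝ) ^ 2 * (R : ℝ) ^ (2 * (k : ℝ) * (1 + η))) := by
    have hE0 : 0 ≤ E := by
      rw [hE]
      exact Finset.sum_nonneg fun _ _ => Finset.sum_nonneg fun _ _ => Finset.sum_nonneg fun _ _ =>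
        Finset.sum_nonneg fun _ _ => by positivity
    have h1 : E = ‖(E : ℂ)‖ := by
      rw [Complex.norm_real, Real.norm_eq_abs, abs_of_nonneg hE0]
    rw [h1, hEC]
    refine (norm_sum_le _ _).trans (Finset.sum_le_sum fun p hp => ?_)
    refine (norm_sum_le _ _).trans (Finset.sum_le_sum fun q hq => ?_)
    rw [norm_mul, norm_mul, norm_star]
    have hp1 := pr_pos hI1 hp
    have hq1 := pr_pos hI1 hq
    have hR0 : (0 : ℝ) ≤ C * (K : ℝ) ^ 2 * (R : ℝ) ^ (2 * (k : ℝ) * (1 + η)) := by positivity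
    by_cases hfc : fc (pr p) = fc (pr q)
    · rw [if_pos hfc, mul_one]
      have := mul_le_mul_of_nonneg_left (hTn (pr p) (pr q) hp1 hq1)
        (mul_nonneg (norm_nonneg (cp c p)) (norm_nonneg (cp c q)))
      linarith
    · rw [if_neg hfc, mul_zero, zero_mul, zero_add]
      have h2 := hpvb (pr p) (pr q) K hp1 hq1 hfc
      have h3 : ‖cp c p‖ * ‖cp c q‖ ≤ 1 := mul_le_one₀ (cp_le hc hp) (norm_nonneg _) (cp_le hc hq)
      have h4 : ((pr p : ℝ) * (pr q : ℝ)) ^ (1 + η) ≤ (R : ℝ) ^ (2 * (k : ℝ) * (1 + η)) := by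
        have h5 : (pr p : ℝ) * (pr q : ℝ) ≤ (R : ℝ) ^ (2 * (k : ℝ)) := by
          have h6 : (pr p : ℝ) ≤ (R : ℝ) ^ k := by exact_mod_cast pr_le hI2 hp
          have h7 : (pr q : ℝ) ≤ (R : ℝ) ^ k := by exact_mod_cast pr_le hI2 hq
          calc (pr p : ℝ) * (pr q : ℝ) ≤ (R : ℝ) ^ k * (R : ℝ) ^ k :=
                mul_le_mul h6 h7 (Nat.cast_nonneg _) (by positivity)
            _ = (R : ℝ) ^ (2 * (k : ℝ)) := by
                rw [← pow_add, ← Real.rpow_natCast]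
                congr 1
                push_cast
                ring
        calc ((pr p : ℝ) * (pr q : ℝ)) ^ (1 + η) ≤ ((R : ℝ) ^ (2 * (k : ℝ))) ^ (1 + η) :=
              Real.rpow_le_rpow (by positivity) h5 (by linarith)
          _ = _ := by rw [← Real.rpow_mul (Nat.cast_nonneg R)]
      calc ‖cp c p‖ * ‖cp c q‖ * ‖T (pr p) (pr q)‖ ≤ 1 * ‖T (pr p) (pr q)‖ :=
            mul_le_mul_of_nonneg_right h3 (norm_nonneg _)
        _ = ‖T (pr p) (pr q)‖ := one_mul _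
        _ ≤ C * (K : ℝ) ^ 2 * ((pr p : ℝ) * (pr q : ℝ)) ^ (1 + η) := h2
        _ ≤ C * (K : ℝ) ^ 2 * (R : ℝ) ^ (2 * (k : ℝ) * (1 + η)) :=
            mul_le_mul_of_nonneg_left h4 (by positivity)
  refine hbound.trans (le_of_eq ?_)
  rw [integral_expand syt k hI1 c]
  simp only [Finset.sum_add_distrib]
  congr 1
  · rw [Finset.mul_sum]
    refine Finset.sum_congr rfl fun p _ => ?_
    rw [Finset.mul_sum]
    exact Finset.sum_congr rfl fun q _ => by ring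
  · rw [Finset.sum_const, Finset.sum_const, card_J]
    simp only [nsmul_eq_mul]
    push_cast
    ring

end Pool.Agent.Q277.CC.Mo
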